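import Pool.Agent.Run7.h312.AB.Final

/-!
# When is the category of Chow motives abelian? Smash-nilpotent cycles, Tate's conjecture, phantoms

`𝒞` is a rigid (braided) tensor category which is preadditive, with finite direct sums and split
idempotents, and with a biadditive tensor product. The example is `𝒞 = CHMot(k)`, the category of Chow
motives with rational coefficients over a field `k`, or a thick rigid tensor subcategory of it, for
instance the one which is generated by a class of varieties. The cycles on a motive `M` are the
morphisms `z : 𝟙 ⟶ M`: for `M = h(X)(i)` these are the elements of `CH^i(X)` (rational coefficients);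
`pwHom z n` is the exterior power `z × ⋯ × z`, and `z` is numerically trivial if `z ≫ g = 0` for all
`g : M ⟶ 𝟙` (`RatEqNum`, `NumTrivial`). The question is whether `CHMot(k)` is abelian (`IsAbelian`) for a
finite field `k`. It is so if rational and numerical equivalence coincide (conjecture of Beilinson), by
Jannsen's theorem that the category of numerical motives is semisimple. We prove converses.

1. **If `𝒞` is abelian then all smash-nilpotent morphisms are zero.** So if `CHMot(k)` is abelian then
   all smash-nilpotent cycles are torsion in the Chow groups, for example all cycles which are
   algebraically equivalent to zero (Voevodsky, Voisin) and all cycles on oddly finite-dimensional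
   motives (Kimura). One smash-nilpotent cycle of infinite order over a finite field would disprove
   the conjecture.
2. Rational and numerical equivalence coincide if `𝒞` is abelian and one of the following is true:
   * numerically trivial cycles are smash-nilpotent (Voevodsky's conjecture);
   * the groups of cycles are exact in the following sense: for all epimorphisms `M ⟶ N` the map from the
     cycles on `M` to the cycles on `N` is surjective;
   * all monomorphisms split.
3. Let `F` be a Frobenius, an endomorphism of the identity functor which is the identity of the unit
   object (for a finite field `k`: the Frobenius endomorphisms of the motives). **Rational and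
   numerical equivalence coincide if `𝒞` is abelian, the conjecture of Tate is true for the motives
   with unipotent Frobenius, and there are no phantoms with unipotent Frobenius** (objects `M ≠ 0` with
   numerically trivial identity). Finite-dimensionality, nilpotence of correspondences and
   semisimplicity of the Frobenius are not assumed.
4. Conversely, if rational and numerical equivalence coincide then all the above properties (except
   the conjecture of Tate) are true, the first one by the theorem of Jannsen
   (`SemisimpleModNum`, which is used only here).

So for a finite field `k` the conjecture of the problem and Voevodsky's conjecture (over `k`) together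
are equivalent to Beilinson's conjecture that rational and numerical equivalence coincide; and if
the conjecture of Tate is true (with numerical equivalence) then Beilinson's conjecture is equivalent to
the conjecture of the problem together with the non-existence of phantoms with unipotent Frobenius.

Proof of 1: the functors `T ⊗ -` have adjoints on both sides, so they preserve monomorphisms and
epimorphisms. Let `I` be the image of `f`. Then the tensor power of `f` factors into an epimorphism to
`I ⊗ ⋯ ⊗ I` and a monomorphism, so if it is zero then `I ⊗ ⋯ ⊗ I = 0`; but `I` is a direct summand of
`I ⊗ I^∨ ⊗ I`, so `I = 0`. Proof of 3: an object with unipotent Frobenius is a sum of unit objects: an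
idempotent lift of its identity modulo numerical equivalence can be constructed with the matrix of the
scalars `𝟙 ⟶ M ⟶ 𝟙`, and the complement is a phantom. Let `z : 𝟙 ⟶ M` be numerically trivial and
`φ = F - 1` on `M`. The kernel of `φ ^ 2` has a unipotent Frobenius, so it is the kernel of `φ`. The
cokernel of `φ` is a sum of unit objects, so `z` vanishes in it, and `z` lifts locally to `M` along
`φ`; the lift is killed by `φ ^ 2`, hence by `φ`, and `z = 0`.
-/

set_option autoImplicit false

open CategoryTheory CategoryTheory.Limits MonoidalCategory

universe v u

namespace Pool.Agent.Results.MP_6c4da4_ag.AbelianPlusVoevodsky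

open Pool.Agent.Run7.h312.AB

/-- **Abelian rigid tensor categories like the category of Chow motives over a finite field:
smash-nilpotent morphisms vanish, and together with Voevodsky's conjecture, or with Tate's conjecture
and the non-existence of phantoms with unipotent Frobenius, rational and numerical equivalence
coincide.** -/
theorem result {𝒞 : Type u} [Category.{v} 𝒞] [Preadditive 𝒞] [MonoidalCategory 𝒞]
    [MonoidalPreadditive 𝒞] [BraidedCategory 𝒞] [RigidCategory 𝒞] [HasFiniteBiproducts 𝒞]
    [IsIdempotentComplete 𝒞] :
    -- smash-nilpotent morphisms of an abelian category vanish
    (IsAbelian 𝒞 → ∀ (M N : 𝒞) (f : M ⟶ N), SmashNilpotent f → f = 0) ∧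
    -- rational and numerical equivalence coincide under each of four conditions
    (IsAbelian 𝒞 → (Voevodsky 𝒞 ∨ CyclesLift 𝒞 ∨ MonosSplit 𝒞 ∨
      ∃ F : Frobenius 𝒞, TateConjecture F ∧ NoUnipotentPhantom F) → RatEqNum 𝒞) ∧
    -- conversely these properties hold if rational and numerical equivalence coincide
    (SemisimpleModNum 𝒞 → RatEqNum 𝒞 → IsAbelian 𝒞 ∧ Voevodsky 𝒞 ∧ CyclesLift 𝒞 ∧ MonosSplit 𝒞 ∧
      ∀ F : Frobenius 𝒞, NoUnipotentPhantom F) := by
  refine ⟨fun h M N f hf => fin_smash h hf, fun h hc => ?_, fun hJ h => ⟨fin_abelian hJ h,
    vo_of_rat h, fin_cyclesLift hJ h, fin_monosSplit hJ h, fun F => fin_phantom h F⟩⟩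
  rcases hc with hc | hc | hc | ⟨F, hT, hP⟩
  · exact fin_voevodsky h hc
  · exact fin_lift h hc
  · exact fin_split h hc
  · exact fin_tate h hT hP

end Pool.Agent.Results.MP_6c4da4_ag.AbelianPlusVoevodsky
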