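import Mathlib
import Pool.Agent.Y1.KN.All
import Pool.Agent.Y1.KN.Use
import Pool.Agent.Run7.h312.CM.Gen
import Pool.Agent.Run7.h312.TS.DivTB

/-!
# Chow motives over a finite field generated by abelian varieties form an abelian category: almost
# all slope types of all CM fields with few CM subfields, and of all CM fields whose degree has a
# large prime factor

The abelian varieties. Over an algebraic closure of the field with `p` elements each abelian
variety is isogenous to the reduction of an abelian variety of CM type (Honda, Tate). So an abelian
variety over the field with `p ^ a` elements is modelled by `RedAV`: a finite product of CM types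
`(E i, Φ i)` with Weil numbers
`π i ∈ E i` that satisfy the formula of Shimura and Taniyama; its cohomology of degree `n`, with
coefficients in an algebraically closed field `Ω`, consists of the alternating `n`-forms on `Ω ⊗
H_1`, on which the Frobenius endomorphism acts by `π`. We fix an isomorphism `ν` of the algebraic
closure of `ℚ_p` with `ℂ`; it defines a `p`-adic valuation of `ℂ`, with the value one at `p`.

Let `K i` be finitely many CM fields, of degrees `2 g i`, that are pairwise independent: for `i ≠ k`
and all complex embeddings `φ` of `K i` and `ψ` of `K k` some automorphism of `ℂ` is the identity on
`φ (K i)` and the complex conjugation on `ψ (K k)` (this is no condition for one field). Nothing is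
assumed about their Galois groups. Let `M i` be a function with nonzero integral values, all of
which divide `n i`, on the complex embeddings of `K i`, invariant under complex conjugation (the
weights). A CM type `Φ i` of `K i` (a choice of one element out of each complex conjugate pair of
embeddings; there are `2 ^ (g i)` types), `M i` and a real number `κ ≠ 0` prescribe the slopes `(a +
κ M) / 2` (at the embeddings in `Φ i`) and `(a - κ M) / 2` (outside of `Φ i`) of a Weil number in `K
i`. If `p` splits completely in `K i` then, by Honda and Tate, all slopes with rational values
between `0` and `a` that are symmetric in this way occur for abelian varieties. The case `M = 1`, `κ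
= a` is the ordinary case; the assumption on `M` says that `a / 2` is not a slope. Slopes are
rational, so integral weights `M` are no restriction.

For a family of types `Φ i` let `𝒜` (`OfTypes`) be the class of the abelian varieties `Y` each of
whose factors is supersingular or has a Frobenius endomorphism some power of which is, for some `i`,
a Weil number in `K i` with the slopes prescribed by `Φ i`, `M i` and some real number `κ i ≠ 0`
(which depends only on `Y` and `i`). So `Y` is, over an algebraic closure, isogenous to a product of
powers of one abelian variety for each `i`, with the given slopes, and of a supersingular one.

The property **A** of a family of types: **the categories of Chow motives over finite fields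
generated by the abelian varieties in `𝒜` are abelian and semisimple, and rational and
numerical equivalence coincide in them** (`AbelianFor`, below).

A family of types is exceptional (`exceptionalFamilies ν K M`) if the property **A** is
false for it. The theorem bounds the number of the exceptional families: it is at most `2 ^ (∑ i, g
i) * ∑ i, C * (n i) ^ 2 * rate (K i) (g i) (q i)`, with an absolute constant `C`. Here `q i` is any
prime factor of `g i` (or `q i = 1`), and `rate K g q` is `(1 + log (2 g)) ^ 16` times the smaller
of the numbers

* `W (K) / √g`, where (second part of the theorem, `WeightEstimate`) `W (K) ≤ N ^ 2 * D ^ (1 / 4)`;
  `N` is the number of the CM subfields of `K` (with `K`) and `D` is the largest degree of a CM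
  subfield of `K` that is normal over `ℚ` with a nonabelian Galois group (`D = 1` if there are
  none);
* `√g / q`.

So the exceptional types are a proportion `O (n ^ 2 * g ^ (-1 / 4) * (log g) ^ 16)` of all types of
all CM fields with a bounded number of CM subfields, and `O (n ^ 2 * g ^ (-1 / 2) * (log g) ^ 16)`
if the normal nonabelian ones have bounded degrees (for instance if `K` has no proper CM subfields
and is not normal). And they are a proportion `O (n ^ 2 * g ^ (-δ) * (log g) ^ 16)` of the types of
all CM fields `K`, with any number of subfields, whose degree is divisible by a prime number `q ≥ g
^ (1 / 2 + δ)`; for small `δ` there are such primes for about `log 2`, that is 69%, of all numbers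
`g`. Some assumption is necessary: a multiquadratic CM field of degree `2 g` has `g` imaginary
quadratic subfields, and almost all of its types are degenerate. Nothing is assumed about the Galois
groups.

The number `W (K)` (`subfieldWeight K`) is defined as follows. The automorphisms of `ℂ` act on the
rational functions on the set of the complex embeddings of `K` which change their sign under complex
conjugation. A field of definition (`fieldsOfDefinition K`) of an isotypic component of this
representation is a smallest subfield `F` of `K` such that the values of the functions in the
component depend only on the restrictions of the embeddings to `F`. It is a CM field. Then `W (K)`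
is the sum over these fields `F` of the number of the CM subfields of `F`, multiplied by `[F : ℚ] ^
(1 / 4)` if `F` is normal over `ℚ` and its Galois group is not abelian.

## The categories

`AbelianFor ν S`: let `𝒞` be a pseudo-abelian rigid symmetric tensor category with rational
coefficients such that

* nilpotent endomorphisms have trace zero (for Chow motives this follows from the Lefschetz trace
  formula: the trace of a correspondence is the alternating sum of its traces on the `ℓ`-adic
  cohomology),
* every object is a direct summand of a finite direct sum of twists `h(Y)(c)` of motives of abelian
  varieties `Y` over the finite field `k` with the property `S`. Here (`IsTwistOf`) we only use that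
  `Hom(𝟙, h(Y)(c)) = CH^c(Y)`, that `Hom(h(Y)(c), 𝟙) = CH^(g - c)(Y)` (Poincaré duality), and
  that the composition is the intersection number; for `c < 0` and `c > g` these groups are zero.

Then **`𝒞` is an abelian category**, rational and numerical equivalence coincide in `𝒞`
(`RatEqNum`), and `𝒞` is semisimple: every morphism `f` is von Neumann regular, `f g f = f` for
some `g`. For a class of abelian varieties that is closed under products, the full subcategory
`𝒞` of `CHMot(k)` generated by the `h(Y)(c)` is such a category: direct summands of direct sums of
twists of `h(Y)`. It contains the motives of the curves with Jacobians in the class, of products of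
such curves, of their symmetric products, of varieties dominated by such products, and so on.

Properties of the theory of cycles that are used for the abelian varieties (`IsChowRing`): Poincaré
duality, the formal properties of correspondences, the nilpotence of homologically trivial
correspondences (Kimura), the operation of the Frobenius endomorphism on the Chow groups, and the
algebraicity of those Tate classes which are linear combinations of products of Tate classes of
degree two over finite extensions of the ground field (theorem of Tate).

The proof: for these types all relations between the Frobenius eigenvalues are products of
relations between two eigenvalues, so the Tate classes are polynomials in divisor classes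
(`TS/DivMain`); by Kahn's argument, formalized in the starting files (`W495/FM`), rational and
numerical equivalence coincide for `Y`. So they coincide in `𝒞`. Hence the form `tr (b a)` on the
finite-dimensional algebra `End M` is non-degenerate; it vanishes on nilpotent elements, and
therefore this algebra is semisimple (this is Jannsen's argument, `Run7/h312/CM`).
-/

set_option autoImplicit false

namespace Pool.Agent.Results.MP_6c4da4_ag.AllCMFields

open NumberField Module Pool.Agent.H204R3.CM Pool.Agent.H977R3.CM Pool.Agent.Y1.KN
  Pool.Agent.Run7.h312.TS Pool.Agent.Run7.h312.CM Pool.Agent.TH170

/-- The exceptional families of CM types: those for which one of the categories of Chow motives over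
finite fields generated by abelian varieties with the slope types `Φ` is not abelian and
semisimple. -/
def exceptionalFamilies {p : ℕ} [Fact p.Prime] (ν : PadicAlgCl p ≃+* ℂ) {I : Type} (K : I → Type)
    [∀ i, Field (K i)] (M : ∀ i, (K i →+* ℂ) → ℤ) : Set (∀ i, Set (K i →+* ℂ)) :=
  {Φ | (∀ i, IsCMType (Φ i)) ∧ ¬ AbelianFor ν fun _ _ _ Y C => GS.OfTypes K M Φ Y ∧ IsChowRing C}

/-- **The categories of Chow motives over finite fields generated by abelian varieties with almost all
slope types of all CM fields with few CM subfields, and of all CM fields whose degree has a large
prime factor, are abelian.** -/
theorem result :
    (∃ C : ℝ, 0 ≤ C ∧ ∀ (p : ℕ) [Fact p.Prime] (ν : PadicAlgCl p ≃+* ℂ) (I : Type) [Fintype I]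
      (K : I → Type) [∀ i, Field (K i)] [∀ i, NumberField (K i)] [∀ i, IsCMField (K i)]
      (M : ∀ i, (K i →+* ℂ) → ℤ) (n g q : I → ℕ), PairwiseIndep K →
      (∀ i φ, M i (ComplexEmbedding.conjugate φ) = M i φ) → (∀ i, n i ≠ 0) →
      (∀ i φ, M i φ ∣ (n i : ℤ)) → (∀ i, finrank ℚ (K i) = 2 * g i) →
      (∀ i, q i ∣ g i ∧ (q i = 1 ∨ (q i).Prime)) →
      ((exceptionalFamilies ν K M).ncard : ℝ) ≤
        2 ^ (∑ i, g i) * ∑ i, C * (n i : ℝ) ^ 2 * rate (K i) (g i) (q i)) ∧
    WeightEstimate := by
  obtain ⟨C, hC0, hC⟩ := families_holds
  refine ⟨⟨C, hC0, ?_⟩, weight_estimate_holds⟩
  intro p _ ν I _ K _ _ _ M n g q hind hM hn hMn hg hq
  exact hC I K M n g q hM hn hMn hg hq _ fun Φ hΦ hnd =>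
    abelianFor_of fun _ _ _ _ _ _ h => isChow_of h.2 (pairs_of_types hind hM hΦ hnd h.1)

end Pool.Agent.Results.MP_6c4da4_ag.AllCMFields
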