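import Pool.Agent.Run7.h312.CM.Gen
import Pool.Agent.TH117.GN.Main

/-!
# Chow motives over a finite field generated by abelian varieties form an abelian category: abelian
# varieties with elementary relations between the Frobenius eigenvalues

The abelian varieties. Over an algebraic closure of the field with `p` elements each abelian
variety is isogenous to the reduction of an abelian variety of CM type (Honda, Tate). So an abelian
variety over the field with `p ^ a` elements is modelled by `RedAV`: a finite product of CM types `(E
i, Φ i)` with Weil numbers `π i ∈ E i` that satisfy the formula of Shimura and Taniyama; its
cohomology of degree `n`, with coefficients in an algebraically closed field `Ω`, consists of the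
alternating `n`-forms on `Ω ⊗ H_1`, on which the Frobenius endomorphism acts by `π`. We consider
the abelian varieties `Y` that are, over an algebraic closure, isogenous to products of powers of
simple factors of an abelian variety `Z` and of a supersingular abelian variety
(`IsPowersTimesSupersingular`), where `Z` has elementary relations (`HasElementaryRelations`): the
multiplicative relations between the eigenvalues of Frobenius on `H^1(Z)` and `q` are consequences of
those which

* involve at most two eigenvalues, or
* involve only eigenvalues of factors of `Z` whose dimensions add up to at most five, no two of
  which form an exceptional pair; or of factors of dimension at most three, any two of which are
  isogenous if their CM fields have the same Galois closure, unless these fields are Galois over `ℚ` or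
  one of the factors is supersingular, or
* belong to Weil classes of an imaginary quadratic field on an abelian variety of dimension three,
  four or five, or of dimension six if `p` splits in this field.

So for instance `Z` may be any abelian variety of dimension at most five without exceptional pairs
(second part of the theorem); in particular any simple abelian variety of dimension at most five, or
any product of abelian surfaces and threefolds the CM fields of which have different Galois
closures. **The theorem: the category of Chow motives over a finite field generated by such `Y` is
abelian and semisimple, and rational and numerical equivalence coincide in it.**

## The categories

`AbelianFor ν S`: let `𝒞` be a pseudo-abelian rigid symmetric tensor category with rational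
coefficients such that

* nilpotent endomorphisms have trace zero (for Chow motives this follows from the Lefschetz trace
  formula: the trace of a correspondence is the alternating sum of its traces on the `ℓ`-adic
  cohomology),
* every object is a direct summand of a finite direct sum of twists `h(Y)(c)` of motives of abelian
  varieties `Y` over the finite field `k` with the property `S`. Here (`IsTwistOf`) we only use that
  `Hom(𝟙, h(Y)(c)) = CH^c(Y)`, that `Hom(h(Y)(c), 𝟙) = CH^(g - c)(Y)` (Poincaré duality), and
  that the composition is the intersection number; for `c < 0` and `c > g` these groups are zero.

Then **`𝒞` is an abelian category**, rational and numerical equivalence coincide in `𝒞`
(`RatEqNum`), and `𝒞` is semisimple: every morphism `f` is von Neumann regular, `f g f = f` for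
some `g`. For a class of abelian varieties that is closed under products, the full subcategory
`𝒞` of `CHMot(k)` generated by the `h(Y)(c)` is such a category: direct summands of direct sums of
twists of `h(Y)`. It contains the motives of the curves with Jacobians in the class, of products of
such curves, of their symmetric products, of varieties dominated by such products, and so on.

Properties of the theory of cycles that are used for the abelian varieties (`IsChow`): Poincaré
duality, the formal properties of correspondences, the nilpotence of homologically trivial
correspondences (Kimura), the operation of the Frobenius endomorphism on the Chow groups, and the
algebraicity of the Tate classes in `Alg` (theorems of Tate and Markman).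

The proof: by the starting files (`TH117`) the Tate classes on these abelian varieties are generated
by Tate classes of degree two and Weil classes, so they are algebraic; by Kahn's argument,
formalized in the starting files (`W495/FM`), rational and numerical equivalence coincide for `Y`.
So they coincide in `𝒞`. Hence the form `tr (b a)` on the finite-dimensional algebra `End M` is
non-degenerate; it vanishes on nilpotent elements, and therefore this algebra is semisimple (this is
Jannsen's argument, `Run7/h312/CM`).
-/

set_option autoImplicit false

namespace Pool.Agent.Results.MP_6c4da4_ag.ElementaryRelations

open Pool.Agent.W495.TA Pool.Agent.W495.FM Pool.Agent.TH117 Pool.Agent.TH117.GN
  Pool.Agent.Run7.h312.CM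

/-- (1) **The categories of Chow motives over finite fields generated by abelian varieties which are,
over an algebraic closure, products of powers of the simple factors of abelian varieties with
elementary relations and of supersingular ones, are abelian.** (2) Abelian varieties of
dimension at most five without exceptional pairs, and abelian varieties with factors of
dimension at most three as in `IsGoodSet`, have elementary relations. -/
theorem result (p : ℕ) [Fact p.Prime] (ν : PadicAlgCl p ≃+* ℂ) :
    (AbelianFor ν fun _ _ _ Y C => (∃ Z : RedAV p ν, BL.HasElementaryRelations Z ∧
      BL.IsPowersTimesSupersingular Z Y) ∧ IsChow C) ∧
    ∀ Z : RedAV p ν, BL.IsGoodSet Z Set.univ → BL.HasElementaryRelations Z :=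
  ⟨abelianFor_of fun _ _ _ _ _ _ h => ⟨h.2, tateHolds_elem h.1.choose_spec.1
    h.1.choose_spec.2 h.2⟩, fun _ h => elem_of_good h⟩

end Pool.Agent.Results.MP_6c4da4_ag.ElementaryRelations
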