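import Mathlib
import Pool.Agent.Run7.h879.HA.Bridge
import Pool.Agent.Run7.h312.CM.Gen
import Pool.Agent.Run7.h312.TS.DivTB

/-!
# Chow motives over a finite field generated by abelian varieties form an abelian category: one half
# of all slope types of every CM field of degree `2 r ^ k`

The abelian varieties. Over an algebraic closure of the field with `p` elements each abelian
variety is isogenous to the reduction of an abelian variety of CM type (Honda, Tate). So an abelian
variety over the field with `p ^ a` elements is modelled by `RedAV`: a finite product of CM types `(E
i, Φ i)` with Weil numbers `π i ∈ E i` that satisfy the formula of Shimura and Taniyama; its
cohomology of degree `n`, with coefficients in an algebraically closed field `Ω`, consists of the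
alternating `n`-forms on `Ω ⊗ H_1`, on which the Frobenius endomorphism acts by `π`. We fix an
isomorphism `ν` of the algebraic closure of `ℚ_p` with `ℂ`; it defines a `p`-adic valuation of `ℂ`,
with the value one at `p`.

Let `K i` be finitely many CM fields, of degrees `2 g i`, that are pairwise independent: for `i ≠ k`
and all complex embeddings `φ` of `K i` and `ψ` of `K k` some automorphism of `ℂ` is the identity on
`φ (K i)` and the complex conjugation on `ψ (K k)` (this is no condition for one field). Nothing is
assumed about their Galois groups. Let `M i` be a function with integral values on the complex
embeddings of `K i`, invariant under complex conjugation (the weights). A CM type `Φ i` of `K i` (a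
choice of one element out of each complex conjugate pair of embeddings; there are `2 ^ (g i)`
types), `M i` and a real number `κ ≠ 0` prescribe the slopes `(a + κ M) / 2` (at the embeddings in
`Φ i`) and `(a - κ M) / 2` (outside of `Φ i`) of a Weil number in `K i`. If `p` splits completely in
`K i` then, by Honda and Tate, all slopes with rational values between `0` and `a` that are
symmetric in this way occur for abelian varieties. The case `M = 1`, `κ = a` is the ordinary case.

For a family of types `Φ i` let `𝒜` (`OfTypes`) be the class of the abelian varieties `Y` each of
whose factors is supersingular or has a Frobenius endomorphism some power of which is, for some `i`,
a Weil number in `K i` with the slopes prescribed by `Φ i`, `M i` and some real number `κ i ≠ 0`.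
So `Y` is, over an algebraic closure, isogenous to a product of powers of one abelian variety for
each `i`, with the given slopes, and of a supersingular one. For fixed quotients `κ i / a` the class is
closed under products, and the direct summands of direct sums of twists of the motives of its
members form a rigid tensor category.

The property `Holds` of a family of types: **the categories of Chow motives over finite fields
generated by the abelian varieties in `𝒜` are abelian and semisimple, and rational and
numerical equivalence coincide in them** (`AbelianFor`, below).

**The theorem.** Let `E` be **any CM field of degree `2 g = 2 r ^ k`**, `r` a prime number, of
degree at least `16` if `r = 2`. Nothing is assumed about the Galois group of the normal closure of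
`E`, and nothing about the subfields of `E`.

* (`HalfOfAll`) For all weights `M` (odd if `r = 2`; if `r` is odd then `r` may divide some, but not
  all of them) the property `Holds` is true for **at least one half of all `2 ^ g` types** of `E`.
* (`MostWithWeightsOne`) For the weights `M = 1` (for instance in the ordinary case) it is true for
  at least `(1 - 1 / r) 2 ^ g` of the types.
* (`OneOfTwo`) There is a set `B` of embeddings of `E`, stable under complex conjugation, such that
  for **every** type `Φ` it is true for `Φ` or for the symmetric difference of `Φ` and `B`.
* (`SixteenPercent`) There is a number `g₀` such that for every CM field that is **abelian over
  `ℚ`**, of any degree `2 g ≥ 2 g₀`, and all odd weights it is true for at least 16 percent of all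
  `2 ^ g` types; again nothing is assumed on the subfields.

All this is proved more generally for finitely many pairwise independent fields `K i`; the
proportions are then multiplied.

## The categories

`AbelianFor ν S`: let `𝒞` be a pseudo-abelian rigid symmetric tensor category with rational
coefficients such that

* nilpotent endomorphisms have trace zero (for Chow motives this follows from the Lefschetz trace
  formula: the trace of a correspondence is the alternating sum of its traces on the `ℓ`-adic
  cohomology),
* every object is a direct summand of a finite direct sum of twists `h(Y)(c)` of motives of abelian
  varieties `Y` over the finite field `k` with the property `S`. Here (`IsTwistOf`) we only use that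
  `Hom(𝟙, h(Y)(c)) = CH^c(Y)`, that `Hom(h(Y)(c), 𝟙) = CH^(g - c)(Y)` (Poincaré duality), and
  that the composition is the intersection number; for `c < 0` and `c > g` these groups are zero.

Then **`𝒞` is an abelian category**, rational and numerical equivalence coincide in `𝒞`
(`RatEqNum`), and `𝒞` is semisimple: every morphism `f` is von Neumann regular, `f g f = f` for
some `g`. For a class of abelian varieties that is closed under products, the full subcategory
`𝒞` of `CHMot(k)` generated by the `h(Y)(c)` is such a category: direct summands of direct sums of
twists of `h(Y)`. It contains the motives of the curves with Jacobians in the class, of products of
such curves, of their symmetric products, of varieties dominated by such products, and so on.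

Properties of the theory of cycles that are used for the abelian varieties (`IsChowRing`): Poincaré
duality, the formal properties of correspondences, the nilpotence of homologically trivial
correspondences (Kimura), the operation of the Frobenius endomorphism on the Chow groups, and the
algebraicity of those Tate classes which are linear combinations of products of Tate classes of
degree two over finite extensions of the ground field (theorem of Tate).

The proof: for these types all relations between the Frobenius eigenvalues are products of
relations between two eigenvalues, so the Tate classes are polynomials in divisor classes
(`TS/DivMain`); by Kahn's argument, formalized in the starting files (`W495/FM`), rational and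
numerical equivalence coincide for `Y`. So they coincide in `𝒞`. Hence the form `tr (b a)` on the
finite-dimensional algebra `End M` is non-degenerate; it vanishes on nilpotent elements, and
therefore this algebra is semisimple (this is Jannsen's argument, `Run7/h312/CM`).
-/

set_option autoImplicit false

namespace Pool.Agent.Results.MP_6c4da4_ag.HalfOfAllTypes

open Pool.Agent.Q29.EP Pool.Agent.Run7.h879.HA Pool.Agent.Run7.h312.TS Pool.Agent.Run7.h312.CM
  Pool.Agent.TH170

/-- The property `Holds` of the families of slope types: the categories of Chow motives over finite
fields generated by abelian varieties with the slope types `Φ` are abelian and semisimple. -/
def Holds : TypeProperty := fun _ _ ν _ _ K _ _ _ M Φ =>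
  AbelianFor ν fun _ _ _ Y C => GS.OfTypes K M Φ Y ∧ IsChowRing C

/-- **The categories of Chow motives over finite fields generated by abelian varieties with one half
of all slope types of every CM field of degree `2 r ^ k` are abelian.** -/
theorem result :
    HalfOfAll Holds ∧ MostWithWeightsOne Holds ∧ OneOfTwo Holds ∧ SixteenPercent Holds :=
  four (of_notMem fun _ _ _ _ _ _ _ _ _ _ _ hind hM hΦ hnd =>
    abelianFor_of fun _ _ _ _ _ _ h => isChow_of h.2 (pairs_of_types hind hM hΦ hnd h.1))

end Pool.Agent.Results.MP_6c4da4_ag.HalfOfAllTypes
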